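import Pool.Agent.W497.FS.Chain

set_option autoImplicit false

/-!
# FS-BB: the boundary of a boundary is zero
-/

namespace Pool.Agent.W216.FS.BB

open Pool.Agent.W497.FS Finset

theorem main : StmBB := by
  intro k _ α _ _ c
  funext A
  have h1 : bd (bd c) A = ∑ x ∈ Aᶜ.sigma (fun v => (insert v A)ᶜ),
      sg k x.1 A * (sg k x.2 (insert x.1 A) * c (insert x.2 (insert x.1 A))) := by
    rw [Finset.sum_sigma]
    unfold bd
    refine Finset.sum_congr rfl fun v _ => ?_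
    rw [Finset.mul_sum]
  rw [h1, Pi.zero_apply]
  have hmem : ∀ x : (_ : α) × α, x ∈ Aᶜ.sigma (fun v => (insert v A)ᶜ) ↔
      x.1 ∉ A ∧ x.2 ∉ A ∧ x.2 ≠ x.1 := by
    rintro ⟨v, u⟩
    simp only [mem_sigma, mem_compl, mem_insert]
    tauto
  refine Finset.sum_involution (fun x _ => ⟨x.2, x.1⟩) ?_ ?_ ?_ ?_
  · rintro ⟨v, u⟩ hx
    obtain ⟨h1, h2, h3⟩ := (hmem _).1 hx
    dsimp only at h1 h2 h3 ⊢
    have e := sg_swap (k := k) h3 h2 h1
    rw [Finset.insert_comm v u A]
    calc sg k v A * (sg k u (insert v A) * c (insert u (insert v A))) +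
          sg k u A * (sg k v (insert u A) * c (insert u (insert v A)))
        = (sg k u (insert v A) * sg k v A + sg k v (insert u A) * sg k u A) *
          c (insert u (insert v A)) := by ring
      _ = 0 := by rw [e]; ring
  · rintro ⟨v, u⟩ hx _ he
    obtain ⟨h1, h2, h3⟩ := (hmem _).1 hx
    exact h3 (congrArg Sigma.fst he)
  · rintro ⟨v, u⟩ hx
    obtain ⟨h1, h2, h3⟩ := (hmem _).1 hx
    exact (hmem _).2 ⟨h2, h1, Ne.symm h3⟩
  · rintro ⟨v, u⟩ hx
    rfl

end Pool.Agent.W216.FS.BB
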