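import Pool.Agent.W497.FS.Chain
import Pool.Agent.W253.FS.A1

set_option autoImplicit false

/-!
# FS-HR: from the ranks of the boundary matrices to exactness
-/

namespace Pool.Agent.W216.FS.HR

open Pool.Agent.W497.FS Finset

section Lin

variable {k : Type} [Field k] {n : ℕ}

/-- the matrix of the boundary -/
noncomputable def MM (k : Type) [Field k] {n : ℕ} (L : Finset (Finset (Fin n))) (i j : ℕ) :
    Matrix {A : Finset (Fin n) // A ∈ L.filter (fun A => A.card = i)}
      {B : Finset (Fin n) // B ∈ L.filter (fun B => B.card = j)} k :=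
  Matrix.of (fun (A : {A : Finset (Fin n) // A ∈ L.filter (fun A => A.card = i)})
             (B : {B : Finset (Fin n) // B ∈ L.filter (fun B => B.card = j)}) =>
          ∑ v ∈ B.1, if B.1.erase v = A.1
            then (-1 : k) ^ (B.1.filter (fun w => w < v)).card else 0)

/-- extension by zero -/
noncomputable def ex0 (L : Finset (Finset (Fin n))) (j : ℕ)
    (x : {B : Finset (Fin n) // B ∈ L.filter (fun B => B.card = j)} → k) :
    Finset (Fin n) → k :=
  fun B => if hB : B ∈ L.filter (fun B => B.card = j) then x ⟨B, hB⟩ else 0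

lemma ex0_of_mem {L : Finset (Finset (Fin n))} {j : ℕ}
    (x : {B : Finset (Fin n) // B ∈ L.filter (fun B => B.card = j)} → k) {B : Finset (Fin n)}
    (hB : B ∈ L.filter (fun B => B.card = j)) : ex0 L j x B = x ⟨B, hB⟩ := dif_pos hB

lemma ex0_of_notMem {L : Finset (Finset (Fin n))} {j : ℕ}
    (x : {B : Finset (Fin n) // B ∈ L.filter (fun B => B.card = j)} → k) {B : Finset (Fin n)}
    (hB : B ∉ L.filter (fun B => B.card = j)) : ex0 L j x B = 0 := dif_neg hB

lemma ex0_inj {L : Finset (Finset (Fin n))} {j : ℕ}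
    {x y : {B : Finset (Fin n) // B ∈ L.filter (fun B => B.card = j)} → k}
    (h : ex0 L j x = ex0 L j y) : x = y := by
  funext B
  have := congrFun h B.1
  rwa [ex0_of_mem x B.2, ex0_of_mem y B.2] at this

lemma key (L : Finset (Finset (Fin n))) (i j : ℕ)
    (x : {B : Finset (Fin n) // B ∈ L.filter (fun B => B.card = j)} → k)
    (A : {A : Finset (Fin n) // A ∈ L.filter (fun A => A.card = i)}) :
    (MM k L i j).mulVec x A = bd (ex0 L j x) A.1 := by
  classical
  have h1 : (MM k L i j).mulVec x A =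
      ∑ B : {B : Finset (Fin n) // B ∈ L.filter (fun B => B.card = j)},
        ∑ v : Fin n, if v ∉ A.1 ∧ B.1 = insert v A.1 then sg k v A.1 * x B else 0 := by
    simp only [Matrix.mulVec, dotProduct]
    refine Finset.sum_congr rfl fun B _ => ?_
    simp only [MM, Matrix.of_apply]
    rw [Finset.sum_mul, ← Finset.sum_subset (Finset.subset_univ B.1)]
    · refine Finset.sum_congr rfl fun v hv => ?_
      by_cases he : B.1.erase v = A.1
      · have hvA : v ∉ A.1 := by
          rw [← he]
          exact Finset.notMem_erase v _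
        have hB : B.1 = insert v A.1 := by
          rw [← he, Finset.insert_erase hv]
        rw [if_pos he, if_pos ⟨hvA, hB⟩, sg]
        congr 3
        rw [hB, Finset.filter_insert, if_neg (lt_irrefl v)]
      · rw [if_neg he, if_neg, zero_mul]
        rintro ⟨hvA, hB⟩
        exact he (by rw [hB, Finset.erase_insert hvA])
    · intro v _ hv
      rw [if_neg]
      rintro ⟨_, hB⟩
      exact hv (by rw [hB]; exact Finset.mem_insert_self _ _)
  rw [h1, Finset.sum_comm, bd, ← Finset.sum_subset (Finset.subset_univ (A.1)ᶜ)]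
  · refine Finset.sum_congr rfl fun v hv => ?_
    have hvA : v ∉ A.1 := Finset.mem_compl.1 hv
    by_cases hB : insert v A.1 ∈ L.filter (fun B => B.card = j)
    · rw [ex0_of_mem x hB, Finset.sum_eq_single ⟨insert v A.1, hB⟩]
      · rw [if_pos ⟨hvA, rfl⟩]
      · intro B _ hne
        rw [if_neg]
        rintro ⟨_, h⟩
        exact hne (Subtype.ext h)
      · intro h
        exact absurd (Finset.mem_univ _) h
    · rw [ex0_of_notMem x hB, mul_zero]
      apply Finset.sum_eq_zero
      intro B _
      rw [if_neg]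
      rintro ⟨_, h⟩
      exact hB (by rw [← h]; exact B.2)
  · intro v _ hv
    apply Finset.sum_eq_zero
    intro B _
    rw [if_neg]
    rintro ⟨h, _⟩
    exact hv (Finset.mem_compl.2 h)

lemma ex0_mulVec (L : Finset (Finset (Fin n))) (hL : ∀ B ∈ L, ∀ A, A ⊆ B → A ∈ L) (i j : ℕ)
    (hij : i = j - 1) (x : {B : Finset (Fin n) // B ∈ L.filter (fun B => B.card = j)} → k) :
    ex0 L i ((MM k L i j).mulVec x) = bd (ex0 L j x) := by
  classical
  funext A
  by_cases hA : A ∈ L.filter (fun A => A.card = i)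
  · rw [ex0_of_mem _ hA, key]
  · rw [ex0_of_notMem _ hA, bd]
    symm
    apply Finset.sum_eq_zero
    intro v hv
    have hvA : v ∉ A := Finset.mem_compl.1 hv
    rw [ex0_of_notMem, mul_zero]
    intro hB
    obtain ⟨h1, h2⟩ := Finset.mem_filter.1 hB
    apply hA
    rw [Finset.mem_filter]
    refine ⟨hL _ h1 A (Finset.subset_insert _ _), ?_⟩
    rw [Finset.card_insert_of_notMem hvA] at h2
    omega

end Lin

lemma cl_down {α : Type} {H : SimpleGraph α} {X A B : Finset α} (hB : B ∈ cl H X) (hAB : A ⊆ B) :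
    A ∈ cl H X := by
  classical
  rw [cl, mem_filter, mem_powerset] at hB ⊢
  exact ⟨hAB.trans hB.1, fun x hx y hy hxy => hB.2 x (hAB hx) y (hAB hy) hxy⟩

open scoped Classical in
lemma mem_lkF' {α : Type} (H : SimpleGraph α) (W κ : Finset α) (x : α) :
    x ∈ lkF H W κ ↔ x ∈ W ∧ ∀ y ∈ κ, H.Adj y x := by
  unfold lkF
  exact Finset.mem_filter

open scoped Classical in
lemma mem_cl' {α : Type} (H : SimpleGraph α) (W σ : Finset α) :
    σ ∈ cl H W ↔ σ ⊆ W ∧ ∀ x ∈ σ, ∀ y ∈ σ, x ≠ y → H.Adj x y := by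
  unfold cl
  rw [← Finset.mem_powerset]
  exact Finset.mem_filter

lemma cl_lkF {α : Type} [DecidableEq α] {H : SimpleGraph α} {W κ : Finset α} (hκ : κ ∈ cl H W)
    (A : Finset α) :
    A ∈ cl H (lkF H W κ) ↔ A ∈ cl H W ∧ Disjoint A κ ∧ A ∪ κ ∈ cl H W := by
  rw [mem_cl'] at hκ
  rw [mem_cl', mem_cl', mem_cl']
  constructor
  · rintro ⟨h1, h2⟩
    have h3 : A ⊆ W := fun x hx => ((mem_lkF' _ _ _ x).1 (h1 hx)).1
    refine ⟨⟨h3, h2⟩, ?_, ?_, ?_⟩
    · rw [Finset.disjoint_left]
      intro x hx hxκ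
      exact (((mem_lkF' _ _ _ x).1 (h1 hx)).2 x hxκ).ne rfl
    · exact Finset.union_subset h3 hκ.1
    · intro x hx y hy hxy
      rcases Finset.mem_union.1 hx with hx | hx <;> rcases Finset.mem_union.1 hy with hy | hy
      · exact h2 x hx y hy hxy
      · exact (((mem_lkF' _ _ _ x).1 (h1 hx)).2 y hy).symm
      · exact ((mem_lkF' _ _ _ y).1 (h1 hy)).2 x hx
      · exact hκ.2 x hx y hy hxy
  · rintro ⟨⟨h1, h2⟩, h3, _, h4⟩
    refine ⟨?_, h2⟩
    intro x hx
    rw [mem_lkF']
    refine ⟨h1 hx, fun y hy => ?_⟩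
    refine h4 y (Finset.mem_union_right _ hy) x (Finset.mem_union_left _ hx) ?_
    rintro rfl
    exact Finset.disjoint_left.1 h3 hx hy

theorem main (hBB : StmBB) : StmHR := by
  classical
  intro k _ n d S r h
  have hcl : cl (skel S) (vert S) = S := Pool.Agent.W253.FS.cl_eq h
  -- the complex of the link
  have hL : ∀ κ ∈ cl (skel S) (vert S),
      cl (skel S) (lkF (skel S) (vert S) κ) = S.filter (fun G => Disjoint G κ ∧ G ∪ κ ∈ S) := by
    intro κ hκ
    ext A
    rw [cl_lkF hκ, Finset.mem_filter, hcl]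
  -- the ranks
  have hr : ∀ L : Finset (Finset (Fin n)), ∀ j : ℕ,
      r L j = Module.finrank k (LinearMap.range (MM k L (j - 1) j).mulVecLin) := by
    intro L j
    rw [h.2.2.1 L j]
    rfl
  have hr' : ∀ L : Finset (Finset (Fin n)), ∀ j : ℕ,
      r L (j + 1) = Module.finrank k (LinearMap.range (MM k L j (j + 1)).mulVecLin) := by
    intro L j
    exact hr L (j + 1)
  have hker : ∀ L : Finset (Finset (Fin n)), ∀ j : ℕ,
      (r L j : ℤ) + Module.finrank k (LinearMap.ker (MM k L (j - 1) j).mulVecLin) =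
        ((L.filter (fun G => G.card = j)).card : ℤ) := by
    intro L j
    rw [hr]
    have h1 := LinearMap.finrank_range_add_finrank_ker (MM k L (j - 1) j).mulVecLin
    rw [Module.finrank_fintype_fun_eq_card, Fintype.card_coe] at h1
    exact_mod_cast h1
  -- chains
  have hon : ∀ (X : Finset (Fin n)) (j : ℕ)
      (x : {B : Finset (Fin n) // B ∈ (cl (skel S) X).filter (fun B => B.card = j)} → k),
      On (skel S) X j (ex0 (cl (skel S) X) j x) := by
    intro X j x A hA
    by_contra hcon
    apply hA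
    apply ex0_of_notMem
    rw [Finset.mem_filter]
    exact hcon
  have hon' : ∀ (X : Finset (Fin n)) (j : ℕ) (c : Finset (Fin n) → k), On (skel S) X j c →
      ex0 (cl (skel S) X) j (fun B => c B.1) = c := by
    intro X j c hc
    funext A
    by_cases hA : A ∈ (cl (skel S) X).filter (fun B => B.card = j)
    · rw [ex0_of_mem _ hA]
    · rw [ex0_of_notMem _ hA]
      by_contra hne
      apply hA
      rw [Finset.mem_filter]
      exact hc A (Ne.symm hne)
  have hzero : ∀ (L : Finset (Finset (Fin n))) (j : ℕ), ex0 (k := k) L j 0 = 0 := by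
    intro L j
    funext A
    by_cases hA : A ∈ L.filter (fun B => B.card = j)
    · rw [ex0_of_mem _ hA]
      rfl
    · rw [ex0_of_notMem _ hA]
      rfl
  have hdown : ∀ X : Finset (Fin n), ∀ B ∈ cl (skel S) X, ∀ A, A ⊆ B → A ∈ cl (skel S) X :=
    fun X B hB A hAB => cl_down hB hAB
  constructor
  · intro κ hκ j hj c hc hbc
    set X := lkF (skel S) (vert S) κ with hX
    set L := cl (skel S) X with hLdef
    have hLe := hL κ hκ
    rw [← hX, ← hLdef] at hLe
    have e1 := h.2.2.2 κ (by rwa [hcl] at hκ) j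
    rw [← hLe, if_neg (by omega)] at e1
    have e2 := hker L j
    have e3 : (r L (j + 1) : ℤ) =
        Module.finrank k (LinearMap.ker (MM k L (j - 1) j).mulVecLin) := by linarith
    rw [hr' L j] at e3
    have hle : LinearMap.range (MM k L j (j + 1)).mulVecLin ≤
        LinearMap.ker (MM k L (j - 1) j).mulVecLin := by
      rintro _ ⟨y, rfl⟩
      rw [LinearMap.mem_ker]
      apply ex0_inj
      rw [Matrix.mulVecLin_apply, Matrix.mulVecLin_apply, ex0_mulVec L (hdown X) _ _ rfl,
        ex0_mulVec L (hdown X) _ _ (by omega), hBB, hzero]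
    have heq := Submodule.eq_of_le_of_finrank_eq hle (by exact_mod_cast e3)
    have hx : (fun B => c B.1 : {B : Finset (Fin n) // B ∈ L.filter (fun B => B.card = j)} → k) ∈
        LinearMap.ker (MM k L (j - 1) j).mulVecLin := by
      rw [LinearMap.mem_ker]
      apply ex0_inj
      rw [Matrix.mulVecLin_apply, ex0_mulVec L (hdown X) _ _ rfl, hon' X j c hc, hbc, hzero]
    rw [← heq] at hx
    obtain ⟨y, hy⟩ := hx
    refine ⟨ex0 L (j + 1) y, hon X (j + 1) y, ?_⟩
    rw [← ex0_mulVec L (hdown X) j (j + 1) (by omega), ← Matrix.mulVecLin_apply, hy,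
      hon' X j c hc]
  · intro κ hκ
    set X := lkF (skel S) (vert S) κ with hX
    set L := cl (skel S) X with hLdef
    have hLe := hL κ hκ
    rw [← hX, ← hLdef] at hLe
    have hκd : κ.card ≤ d := Pool.Agent.W253.FS.card_le h κ (by rwa [hcl] at hκ)
    set j := d - κ.card with hj
    have e1 := h.2.2.2 κ (by rwa [hcl] at hκ) j
    rw [← hLe, if_pos (by omega)] at e1
    have e2 := hker L j
    have e3 : (0 : ℤ) < Module.finrank k (LinearMap.ker (MM k L (j - 1) j).mulVecLin) := by
      have : (0 : ℤ) ≤ (r L (j + 1) : ℤ) := Int.natCast_nonneg _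
      linarith
    have e4 : 0 < Module.finrank k (LinearMap.ker (MM k L (j - 1) j).mulVecLin) := by
      exact_mod_cast e3
    obtain ⟨x, hx⟩ := Module.finrank_pos_iff_exists_ne_zero.1 e4
    refine ⟨ex0 L j x.1, hon X j x.1, ?_, ?_⟩
    · rw [← ex0_mulVec L (hdown X) (j - 1) j rfl, ← Matrix.mulVecLin_apply,
        LinearMap.mem_ker.1 x.2, hzero]
    · intro h0
      apply hx
      apply Subtype.ext
      apply ex0_inj
      rw [h0]
      exact (hzero L j).symm

end Pool.Agent.W216.FS.HR
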